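import Pool.Agent.H26.REM.Targets

set_option autoImplicit false

/-!
# MP_c65535_nt, board rcl_modules, row LS (Lemma S)
-/

namespace Pool.Agent.H90.REM

open Pool.Agent.H26.REM
open NumberField Height Finset Polynomial

section aux

variable {V : Type} [AddCommGroup V] [Module ℚ V]

theorem basCard {ι : Type} [Fintype ι] {L : Submodule ℤ V} {U : Submodule ℚ V} {z : ι → V}
    (h : IsBas L U z) : Fintype.card ι = Module.finrank ℚ U := by
  rw [← h.2.1]
  exact (finrank_span_eq_card h.1).symm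

theorem basMem {ι : Type} {L : Submodule ℤ V} {U : Submodule ℚ V} {z : ι → V}
    (h : IsBas L U z) (i : ι) : z i ∈ L ∧ z i ∈ U :=
  (h.2.2 (z i)).1 (Submodule.subset_span ⟨i, rfl⟩)

theorem basGD (hBLE : T_BLE) {E : Type} [NormedAddCommGroup E] [InnerProductSpace ℂ E]
    (j : V →+ E) {ι κ : Type} [Fintype ι] [DecidableEq ι] [Fintype κ] [DecidableEq κ]
    {L : Submodule ℤ V} {U : Submodule ℚ V} {z : ι → V} {z' : κ → V}
    (h : IsBas L U z) (h' : IsBas L U z') :
    GD (fun i => j (z i)) = GD fun i => j (z' i) := by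
  have hc : Fintype.card κ = Fintype.card ι := by rw [basCard h, basCard h']
  apply le_antisymm
  · exact hBLE V E ι κ L U j z z' h h'.1 (fun i => basMem h' i) hc
  · exact hBLE V E κ ι L U j z' z h' h.1 (fun i => basMem h i) hc.symm

end aux

/-- LS. -/
theorem pf_LS (hQM : T_QM) (hBEX : T_BEX) (hBLE : T_BLE) (hLBD : T_LBD) : T_LS := by
  intro V E E' _ _ _ _ _ _ _ L L' j j' hj hj' hL hL' hsp hsp' t g T hgT hT hginj hgL hsup k' z'
    hz' U₀ k₀ z₀ hz₀
  -- bases
  have hex : ∀ U : Submodule ℚ V, ∃ (a : ℕ) (x : Fin a → V), IsBas L U x := by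
    intro U
    obtain ⟨a, b, x, u, hx, -⟩ := hBEX V L hL U U le_rfl (by rw [hsp]; exact le_top)
    exact ⟨a, x, hx⟩
  have hex' : ∀ U : Submodule ℚ V, ∃ (a : ℕ) (x : Fin a → V), IsBas L' U x := by
    intro U
    obtain ⟨a, b, x, u, hx, -⟩ := hBEX V L' hL' U U le_rfl (by rw [hsp']; exact le_top)
    exact ⟨a, x, hx⟩
  choose a x hx using hex
  choose a' x' hx' using hex'
  obtain ⟨c, hc, hcb⟩ := hLBD V E L j hj hL
  obtain ⟨c', hc', hcb'⟩ := hLBD V E' L' j' hj' hL'
  set F : Submodule ℚ V → ℝ := fun U => Real.log (GD fun i => j (x U i)) with hF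
  set F' : Submodule ℚ V → ℝ := fun U => Real.log (GD fun i => j' (x' U i)) with hF'
  have hpos : ∀ U, 0 < GD fun i => j (x U i) := fun U => hc.trans_le (hcb U _ _ (hx U))
  have hpos' : ∀ U, 0 < GD fun i => j' (x' U i) := fun U => hc'.trans_le (hcb' U _ _ (hx' U))
  have hbot : F ⊥ = 0 := by
    have h0 : Fintype.card (Fin (a ⊥)) = 0 := by
      rw [basCard (hx ⊥)]
      exact finrank_bot ℚ V
    have : IsEmpty (Fin (a (⊥ : Submodule ℚ V))) := Fintype.card_eq_zero_iff.1 h0
    simp only [hF, GD]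
    rw [Matrix.det_isEmpty]
    simp
  have hbot' : F' ⊥ = 0 := by
    have h0 : Fintype.card (Fin (a' ⊥)) = 0 := by
      rw [basCard (hx' ⊥)]
      exact finrank_bot ℚ V
    have : IsEmpty (Fin (a' (⊥ : Submodule ℚ V))) := Fintype.card_eq_zero_iff.1 h0
    simp only [hF', GD]
    rw [Matrix.det_isEmpty]
    simp
  set d := Module.finrank ℚ V with hd
  have hk₀ : k₀ = Module.finrank ℚ U₀ := by
    have := basCard hz₀
    rwa [Fintype.card_fin] at this
  rcases Nat.eq_zero_or_pos d with hd0 | hdpos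
  · have : Module.finrank ℚ U₀ ≤ d := Submodule.finrank_le U₀
    have hk0 : k₀ = 0 := by omega
    subst hk0
    rw [hd0, pow_zero, pow_zero]
  -- the infimum
  have htop : (⊤ : Submodule ℚ V) ≠ ⊥ := by
    intro h
    have h1 : Module.finrank ℚ (⊤ : Submodule ℚ V) = d := finrank_top ℚ V
    rw [h, finrank_bot] at h1
    omega
  set S : Set ℝ := {r | ∃ U : Submodule ℚ V, U ≠ ⊥ ∧ r = F U / (Module.finrank ℚ U : ℝ)} with hS
  have hne : S.Nonempty := ⟨_, ⊤, htop, rfl⟩
  have hdimpos : ∀ U : Submodule ℚ V, U ≠ ⊥ → 1 ≤ Module.finrank ℚ U := by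
    intro U hU
    by_contra hcon
    have h0 : Module.finrank ℚ U = 0 := by omega
    exact hU (Submodule.finrank_eq_zero.1 h0)
  have hbdd : BddBelow S := by
    refine ⟨min (Real.log c) 0, ?_⟩
    rintro r ⟨U, hU, rfl⟩
    have h1 : Real.log c ≤ F U := Real.log_le_log hc (hcb U _ _ (hx U))
    have h2 : (1 : ℝ) ≤ (Module.finrank ℚ U : ℝ) := by exact_mod_cast hdimpos U hU
    rw [le_div_iff₀ (by linarith)]
    have h3 : min (Real.log c) 0 ≤ 0 := min_le_right _ _
    have h4 : min (Real.log c) 0 ≤ Real.log c := min_le_left _ _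
    nlinarith
  set s := sInf S with hs
  have hlow : ∀ U : Submodule ℚ V, s * (Module.finrank ℚ U : ℝ) ≤ F U := by
    intro U
    by_cases hU : U = ⊥
    · rw [hU, hbot]
      simp
    · have h1 : s ≤ F U / (Module.finrank ℚ U : ℝ) := csInf_le hbdd ⟨U, hU, rfl⟩
      have h2 : (1 : ℝ) ≤ (Module.finrank ℚ U : ℝ) := by exact_mod_cast hdimpos U hU
      rwa [le_div_iff₀ (by linarith)] at h1
  -- the main step
  have hmain : ∀ ε : ℝ, 0 < ε → F' ⊤ ≤ s * d + (t : ℝ) * (ε * d) := by
    intro ε hε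
    obtain ⟨r, ⟨U, hU, rfl⟩, hr⟩ := exists_lt_of_csInf_lt hne (lt_add_of_pos_right s hε)
    have hUdim : (1 : ℝ) ≤ (Module.finrank ℚ U : ℝ) := by exact_mod_cast hdimpos U hU
    have hFU : F U ≤ (s + ε) * (Module.finrank ℚ U : ℝ) := by
      rw [div_lt_iff₀ (by linarith)] at hr
      exact hr.le
    have hUd : (Module.finrank ℚ U : ℝ) ≤ d := by exact_mod_cast Submodule.finrank_le U
    have hstep : ∀ (i : Fin t) (W : Submodule ℚ V),
        F' (U.map (g i) ⊔ W) ≤ F' W + s * ((Module.finrank ℚ ↥(U.map (g i) ⊔ W) : ℝ) -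
          (Module.finrank ℚ W : ℝ)) + ε * d := by
      intro i W
      have hdim : Module.finrank ℚ U + Module.finrank ℚ W =
          Module.finrank ℚ ↥(U ⊓ W.comap (g i)) + Module.finrank ℚ ↥(U.map (g i) ⊔ W) := by
        have h1 := Submodule.finrank_sup_add_finrank_inf_eq (U.map (g i)) W
        have h2 : Module.finrank ℚ ↥(U.map (g i)) = Module.finrank ℚ U :=
          (LinearEquiv.finrank_eq (Submodule.equivMapOfInjective (g i) (hginj i) U)).symm
        have h3 : U.map (g i) ⊓ W = (U ⊓ W.comap (g i)).map (g i) := by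
          ext y
          simp only [Submodule.mem_inf, Submodule.mem_map, Submodule.mem_comap]
          constructor
          · rintro ⟨⟨u, hu, rfl⟩, hw⟩
            exact ⟨u, ⟨hu, hw⟩, rfl⟩
          · rintro ⟨u, ⟨hu, hw⟩, rfl⟩
            exact ⟨⟨u, hu, rfl⟩, hw⟩
        have h4 : Module.finrank ℚ ↥((U ⊓ W.comap (g i)).map (g i)) =
            Module.finrank ℚ ↥(U ⊓ W.comap (g i)) :=
          (LinearEquiv.finrank_eq (Submodule.equivMapOfInjective (g i) (hginj i) _)).symm
        rw [h3, h4, h2] at h1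
        omega
      have hq := hQM V V E E' L L' j j' hj hj' hL hL' (g i) (T i) (hgT i) (hT i)
        (U ⊓ W.comap (g i)) U W (U.map (g i) ⊔ W) inf_le_left le_sup_right
        (by rw [hsp]; exact le_top) (by rw [hsp']; exact le_top)
        (fun y hy => Submodule.mem_sup_left (Submodule.mem_map_of_mem hy))
        (fun y hy => ⟨fun h => ⟨hy, h⟩, fun h => h.2⟩) hdim
        (fun y hy _ => hgL i y hy) _ _ _ _ (x (U ⊓ W.comap (g i))) (x U) (x' W)
        (x' (U.map (g i) ⊔ W)) (hx _) (hx _) (hx' _) (hx' _)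
      have hlog := Real.log_le_log (mul_pos (hpos' _) (hpos _)) hq
      rw [Real.log_mul (hpos' _).ne' (hpos _).ne', Real.log_mul (hpos _).ne' (hpos' _).ne'] at hlog
      have hlog' : F' (U.map (g i) ⊔ W) + F (U ⊓ W.comap (g i)) ≤ F U + F' W := hlog
      have hl := hlow (U ⊓ W.comap (g i))
      have hdimR : (Module.finrank ℚ U : ℝ) + (Module.finrank ℚ W : ℝ) =
          (Module.finrank ℚ ↥(U ⊓ W.comap (g i)) : ℝ) +
            (Module.finrank ℚ ↥(U.map (g i) ⊔ W) : ℝ) := by exact_mod_cast hdim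
      have e1 : ε * (Module.finrank ℚ U : ℝ) ≤ ε * d := by
        exact mul_le_mul_of_nonneg_left hUd hε.le
      have e2 : s * ((Module.finrank ℚ ↥(U.map (g i) ⊔ W) : ℝ) - (Module.finrank ℚ W : ℝ)) =
          s * (Module.finrank ℚ U : ℝ) - s * (Module.finrank ℚ ↥(U ⊓ W.comap (g i)) : ℝ) := by
        rw [← mul_sub]
        congr 1
        linarith
      rw [e2]
      linarith
    have hind : ∀ A : Finset (Fin t), F' (⨆ i ∈ A, U.map (g i)) ≤
        s * (Module.finrank ℚ ↥(⨆ i ∈ A, U.map (g i)) : ℝ) + (A.card : ℝ) * (ε * d) := by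
      intro A
      induction A using Finset.induction_on with
      | empty =>
        have h0 : (⨆ i ∈ (∅ : Finset (Fin t)), U.map (g i)) = (⊥ : Submodule ℚ V) := by simp
        rw [h0, hbot']
        simp
      | insert b A hb ih =>
        have h1 : (⨆ i ∈ insert b A, U.map (g i)) = U.map (g b) ⊔ ⨆ i ∈ A, U.map (g i) :=
          Finset.iSup_insert b A _
        rw [h1, Finset.card_insert_of_notMem hb]
        have h2 := hstep b (⨆ i ∈ A, U.map (g i))
        push_cast
        linarith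
    have hA := hind Finset.univ
    have htopA : (⨆ i ∈ (Finset.univ : Finset (Fin t)), U.map (g i)) = ⊤ := by
      have := hsup U hU
      simpa using this
    rw [htopA, finrank_top, Finset.card_univ, Fintype.card_fin] at hA
    exact hA
  have hfin : F' ⊤ ≤ s * d := by
    by_contra hcon
    push Not at hcon
    set δ := F' ⊤ - s * d with hδ
    have hδpos : 0 < δ := by linarith
    have hdR : (0 : ℝ) < d := by exact_mod_cast hdpos
    have h := hmain (δ / (2 * ((t : ℝ) + 1) * d)) (by positivity)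
    have e1 : (t : ℝ) * (δ / (2 * ((t : ℝ) + 1) * d) * d) = δ * (t / (2 * ((t : ℝ) + 1))) := by
      field_simp
    have e2 : (t : ℝ) / (2 * ((t : ℝ) + 1)) ≤ 1 / 2 := by
      rw [div_le_div_iff₀ (by positivity) (by norm_num)]
      have : (0 : ℝ) ≤ t := Nat.cast_nonneg t
      linarith
    rw [e1] at h
    nlinarith
  -- the end
  have hzU : GD (fun i => j (z₀ i)) = GD fun i => j (x U₀ i) := basGD hBLE j hz₀ (hx U₀)
  have hzT : GD (fun i => j' (z' i)) = GD fun i => j' (x' ⊤ i) := basGD hBLE j' hz' (hx' ⊤)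
  rw [hzU, hzT]
  rw [← Real.log_le_log_iff (pow_pos (hpos' ⊤) _) (pow_pos (hpos U₀) _), Real.log_pow,
    Real.log_pow]
  have h1 := hlow U₀
  have h2 : (k₀ : ℝ) = (Module.finrank ℚ U₀ : ℝ) := by exact_mod_cast hk₀
  rw [← h2] at h1
  have h3 : (k₀ : ℝ) * F' ⊤ ≤ (k₀ : ℝ) * (s * d) :=
    mul_le_mul_of_nonneg_left hfin (Nat.cast_nonneg _)
  have h4 : (d : ℝ) * (s * k₀) ≤ (d : ℝ) * F U₀ :=
    mul_le_mul_of_nonneg_left h1 (Nat.cast_nonneg _)
  have h5 : (k₀ : ℝ) * (s * d) = (d : ℝ) * (s * k₀) := by ring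
  change (k₀ : ℝ) * F' ⊤ ≤ (d : ℝ) * F U₀
  linarith

end Pool.Agent.H90.REM
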