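import Pool.Agent.H26.REM.Targets

set_option autoImplicit false

/-!
# MP_c65535_nt, board rcl_modules, row QM
-/

namespace Pool.Agent.H90.REM

open Pool.Agent.H26.REM
open NumberField Height Finset Polynomial

section auxQM

variable {V : Type} [AddCommGroup V] [Module ℚ V]

theorem qmCard {ι : Type} [Fintype ι] {L : Submodule ℤ V} {U : Submodule ℚ V} {z : ι → V}
    (h : IsBas L U z) : Fintype.card ι = Module.finrank ℚ U := by
  rw [← h.2.1]
  exact (finrank_span_eq_card h.1).symm

theorem qmMem {ι : Type} {L : Submodule ℤ V} {U : Submodule ℚ V} {z : ι → V}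
    (h : IsBas L U z) (i : ι) : z i ∈ L ∧ z i ∈ U :=
  (h.2.2 (z i)).1 (Submodule.subset_span ⟨i, rfl⟩)

theorem qmGD (hBLE : T_BLE) {E : Type} [NormedAddCommGroup E] [InnerProductSpace ℂ E]
    (j : V →+ E) {ι κ : Type} [Fintype ι] [DecidableEq ι] [Fintype κ] [DecidableEq κ]
    {L : Submodule ℤ V} {U : Submodule ℚ V} {z : ι → V} {z' : κ → V}
    (h : IsBas L U z) (h' : IsBas L U z') :
    GD (fun i => j (z i)) = GD fun i => j (z' i) := by
  have hc : Fintype.card κ = Fintype.card ι := by rw [qmCard h, qmCard h']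
  apply le_antisymm
  · exact hBLE V E ι κ L U j z z' h h'.1 (fun i => qmMem h' i) hc
  · exact hBLE V E κ ι L U j z' z h' h.1 (fun i => qmMem h i) hc.symm

omit [Module ℚ V] in
theorem qmSpan {E : Type} [NormedAddCommGroup E] [InnerProductSpace ℂ E]
    (j : V →+ E) {ι : Type} (w : ι → V) (y : V) (hy : y ∈ Submodule.span ℤ (Set.range w)) :
    j y ∈ Submodule.span ℂ (Set.range fun i => j (w i)) := by
  induction hy using Submodule.span_induction with
  | mem x hx =>
    obtain ⟨i, rfl⟩ := hx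
    exact Submodule.subset_span ⟨i, rfl⟩
  | zero =>
    rw [map_zero]
    exact Submodule.zero_mem _
  | add x y _ _ hx hy =>
    rw [map_add]
    exact Submodule.add_mem _ hx hy
  | smul n x _ hx =>
    rw [map_zsmul]
    exact zsmul_mem hx n

omit [Module ℚ V] in
theorem qmSumElim {E : Type} [NormedAddCommGroup E] [InnerProductSpace ℂ E]
    (j : V →+ E) {a b : ℕ} (x : Fin a → V) (u : Fin b → V) :
    (fun i => j (Sum.elim x u i)) = Sum.elim (fun i => j (x i)) fun i => j (u i) := by
  funext i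
  rcases i with i | i <;> rfl

theorem qmEm {E : Type} [NormedAddCommGroup E] [InnerProductSpace ℂ E]
    {j : V →+ E} (hj : IsEm j) {a b : ℕ} {x : Fin a → V} {u : Fin b → V}
    (h : LinearIndependent ℚ (Sum.elim x u)) :
    LinearIndependent ℂ (Sum.elim (fun i => j (x i)) fun i => j (u i)) := by
  have h1 := hj (a + b) (Sum.elim x u ∘ finSumFinEquiv.symm)
    (h.comp _ finSumFinEquiv.symm.injective)
  rw [← qmSumElim]
  have h2 := (linearIndependent_equiv (R := ℂ) finSumFinEquiv.symm
    (f := fun i => j (Sum.elim x u i))).1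
  exact h2 h1

end auxQM

/-- QM. -/
theorem pf_QM (hGQ : T_GQ) (hBEX : T_BEX) (hBLE : T_BLE) : T_QM := by
  intro V V' E E' _ _ _ _ _ _ _ _ _ _ L L' j j' hj hj' hL hL' g T hgT hT X U X' U' hXU hXU'
    hU hU' hgU hgX hdim hgL ιX ιU ιX' ιU' _ _ _ _ _ _ _ _ x z x' z' hx hz hx' hz'
  obtain ⟨a, b, x0, u, hx0, hxu⟩ := hBEX V L hL X U hXU hU
  obtain ⟨a', b', x0', u', hx0', hxu'⟩ := hBEX V' L' hL' X' U' hXU' hU'
  have c1 := qmCard hx0
  have c2 := qmCard hxu
  have c3 := qmCard hx0'
  have c4 := qmCard hxu'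
  rw [Fintype.card_fin] at c1 c3
  rw [Fintype.card_sum, Fintype.card_fin, Fintype.card_fin] at c2 c4
  have hbb : b = b' := by omega
  subst hbb
  rw [qmGD hBLE j' hz' hxu', qmGD hBLE j hx hx0, qmGD hBLE j hz hxu, qmGD hBLE j' hx' hx0',
    qmSumElim, qmSumElim]
  -- the coefficients
  have hco : ∀ i : Fin b, ∃ c : Fin a' ⊕ Fin b → ℤ, ∑ s, c s • Sum.elim x0' u' s = g (u i) := by
    intro i
    have hm : Sum.elim x0 u (Sum.inr i) ∈ L ∧ Sum.elim x0 u (Sum.inr i) ∈ U :=
      qmMem hxu (Sum.inr i)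
    have h1 : g (u i) ∈ Submodule.span ℤ (Set.range (Sum.elim x0' u')) :=
      (hxu'.2.2 _).2 ⟨hgL _ hm.1 hm.2, hgU _ hm.2⟩
    exact (Submodule.mem_span_range_iff_exists_fun ℤ).1 h1
  choose c hc using hco
  set N : Matrix (Fin b) (Fin b) ℤ := fun i l => c i (Sum.inr l) with hN
  set w : Fin b → V' := fun i => ∑ s, c i (Sum.inl s) • x0' s with hw
  have hgu : ∀ i, g (u i) = w i + ∑ l, N i l • u' l := by
    intro i
    rw [← hc i, Fintype.sum_sum_type]
    rfl
  have hwX : ∀ i, w i ∈ X' := fun i => Submodule.sum_mem _ fun s _ =>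
    zsmul_mem (qmMem hx0' s).2 _
  have hdet : N.det ≠ 0 := by
    intro h0
    obtain ⟨v, hv, hv0⟩ := Matrix.exists_vecMul_eq_zero_iff.2 h0
    have hli := linearIndependent_sum.1 hxu.1
    have hl2 : LinearIndependent ℚ u := hli.2.1
    have hdis : Disjoint (Submodule.span ℚ (Set.range x0)) (Submodule.span ℚ (Set.range u)) :=
      hli.2.2
    set y : V := ∑ i, (v i : ℚ) • u i with hy
    have hyU : y ∈ U := Submodule.sum_mem _ fun i _ => Submodule.smul_mem _ _
      (show u i ∈ U from (qmMem hxu (Sum.inr i)).2)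
    have hyg : g y ∈ X' := by
      have e1 : g y = ∑ i, v i • g (u i) := by
        rw [hy, map_sum]
        refine Finset.sum_congr rfl fun i _ => ?_
        rw [map_smul, Int.cast_smul_eq_zsmul]
      have e2 : g y = ∑ i, v i • w i + ∑ i, v i • ∑ l, N i l • u' l := by
        rw [e1, ← Finset.sum_add_distrib]
        refine Finset.sum_congr rfl fun i _ => ?_
        rw [hgu i, smul_add]
      have e3 : ∑ i, v i • ∑ l, N i l • u' l = 0 := by
        simp only [Finset.smul_sum, smul_smul]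
        rw [Finset.sum_comm]
        refine Finset.sum_eq_zero fun l _ => ?_
        rw [← Finset.sum_smul]
        have := congrFun hv0 l
        simp only [Matrix.vecMul, dotProduct, Pi.zero_apply] at this
        rw [this, zero_smul]
      rw [e2, e3, add_zero]
      exact Submodule.sum_mem _ fun i _ => zsmul_mem (hwX i) _
    have hyX : y ∈ X := (hgX y hyU).1 hyg
    have hyX' : y ∈ Submodule.span ℚ (Set.range x0) := by
      rw [hx0.2.1]
      exact hyX
    have hyu : y ∈ Submodule.span ℚ (Set.range u) := Submodule.sum_mem _ fun i _ =>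
      Submodule.smul_mem _ _ (Submodule.subset_span ⟨i, rfl⟩)
    have hy0 : y = 0 := Submodule.disjoint_def.1 hdis y hyX' hyu
    apply hv
    funext i
    have := Fintype.linearIndependent_iff.1 hl2 (fun i => (v i : ℚ)) hy0 i
    exact_mod_cast this
  refine hGQ E E' a b a' (fun i => j (x0 i)) (fun i => j (u i)) (fun i => j' (x0' i))
    (fun i => j' (u' i)) T (N.map (Int.castRingHom ℂ)) (qmEm hj hxu.1) (qmEm hj' hxu'.1) hT
    ?_ ?_ ?_
  · intro i
    rw [← hgT]
    have hm := qmMem hx0 i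
    have hmU := hXU hm.2
    exact qmSpan j' x0' _ ((hx0'.2.2 _).2 ⟨hgL _ hm.1 hmU, (hgX _ hmU).2 hm.2⟩)
  · rw [← RingHom.mapMatrix_apply, ← RingHom.map_det]
    have h1 : (1 : ℝ) ≤ |(N.det : ℝ)| := by
      have := Int.one_le_abs hdet
      exact_mod_cast this
    have h2 : ‖(Int.castRingHom ℂ) N.det‖ = |(N.det : ℝ)| := by
      rw [eq_intCast, Complex.norm_intCast]
    rw [h2]
    exact h1
  · intro i
    have e1 : T (j (u i)) - ∑ l, (N.map (Int.castRingHom ℂ)) i l • j' (u' l) = j' (w i) := by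
      have : ∀ l, (N.map (Int.castRingHom ℂ)) i l • j' (u' l) = j' (N i l • u' l) := by
        intro l
        rw [map_zsmul, Matrix.map_apply, eq_intCast, Int.cast_smul_eq_zsmul]
      rw [← hgT, hgu i, map_add, Finset.sum_congr rfl fun l _ => this l, ← map_sum,
        add_sub_cancel_right]
    rw [e1]
    refine qmSpan j' x0' _ (Submodule.sum_mem _ fun s _ => ?_)
    exact Submodule.smul_mem _ _ (Submodule.subset_span ⟨s, rfl⟩)

end Pool.Agent.H90.REM
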