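import Pool.Agent.H26.REM.Targets4

set_option autoImplicit false

/-!
# MP_c65535_nt, board rcl_modules, row FLT (the filtration by the components)
-/

namespace Pool.Agent.H90.REM

open Pool.Agent.H26.REM
open NumberField Height Finset Polynomial

section auxFLT

variable {V : Type} [AddCommGroup V] [Module ℚ V]

theorem flCard {ι : Type} [Fintype ι] {L : Submodule ℤ V} {U : Submodule ℚ V} {z : ι → V}
    (h : IsBas L U z) : Fintype.card ι = Module.finrank ℚ U := by
  rw [← h.2.1]
  exact (finrank_span_eq_card h.1).symm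

theorem flMem {ι : Type} {L : Submodule ℤ V} {U : Submodule ℚ V} {z : ι → V}
    (h : IsBas L U z) (i : ι) : z i ∈ L ∧ z i ∈ U :=
  (h.2.2 (z i)).1 (Submodule.subset_span ⟨i, rfl⟩)

theorem flGD (hBLE : T_BLE) {E : Type} [NormedAddCommGroup E] [InnerProductSpace ℂ E]
    (j : V →+ E) {ι κ : Type} [Fintype ι] [DecidableEq ι] [Fintype κ] [DecidableEq κ]
    {L : Submodule ℤ V} {U : Submodule ℚ V} {z : ι → V} {z' : κ → V}
    (h : IsBas L U z) (h' : IsBas L U z') :
    GD (fun i => j (z i)) = GD fun i => j (z' i) := by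
  have hc : Fintype.card κ = Fintype.card ι := by rw [flCard h, flCard h']
  apply le_antisymm
  · exact hBLE V E ι κ L U j z z' h h'.1 (fun i => flMem h' i) hc
  · exact hBLE V E κ ι L U j z' z h' h.1 (fun i => flMem h i) hc.symm

omit [Module ℚ V] in
theorem flSumElim {E : Type} [NormedAddCommGroup E] [InnerProductSpace ℂ E]
    (j : V →+ E) {a b : ℕ} (x : Fin a → V) (u : Fin b → V) :
    (fun i => j (Sum.elim x u i)) = Sum.elim (fun i => j (x i)) fun i => j (u i) := by
  funext i
  rcases i with i | i <;> rfl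

theorem flEm {E : Type} [NormedAddCommGroup E] [InnerProductSpace ℂ E]
    {j : V →+ E} (hj : IsEm j) {a b : ℕ} {x : Fin a → V} {u : Fin b → V}
    (h : LinearIndependent ℚ (Sum.elim x u)) :
    LinearIndependent ℂ (Sum.elim (fun i => j (x i)) fun i => j (u i)) := by
  have h1 := hj (a + b) (Sum.elim x u ∘ finSumFinEquiv.symm)
    (h.comp _ finSumFinEquiv.symm.injective)
  rw [← flSumElim]
  have h2 := (linearIndependent_equiv (R := ℂ) finSumFinEquiv.symm
    (f := fun i => j (Sum.elim x u i))).1
  exact h2 h1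

theorem flReindex {E : Type} [NormedAddCommGroup E] [InnerProductSpace ℂ E]
    {ι κ : Type} [Fintype ι] [DecidableEq ι] [Fintype κ] [DecidableEq κ] (e : ι ≃ κ)
    (v : κ → E) : GD (fun i => v (e i)) = GD v := by
  have h : Matrix.gram ℂ (fun i => v (e i)) = (Matrix.gram ℂ v).submatrix e e := by
    ext i l
    rfl
  unfold GD
  rw [h, Matrix.det_submatrix_equiv_self]

theorem flEmpty {E : Type} [NormedAddCommGroup E] [InnerProductSpace ℂ E]
    {ι : Type} [Fintype ι] [DecidableEq ι] [IsEmpty ι] (v : ι → E) : GD v = 1 := by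
  unfold GD
  rw [Matrix.det_isEmpty]
  simp

/-- The projection to one block. -/
noncomputable def flT {H : Type} [Fintype H] {k : ℕ} (b : Fin k) :
    EuclideanSpace ℂ (Fin k × H) →ₗ[ℂ] EuclideanSpace ℂ H where
  toFun y := WithLp.toLp 2 fun s => y (b, s)
  map_add' x y := by
    ext s
    simp
  map_smul' c x := by
    ext s
    simp

theorem flT_norm {H : Type} [Fintype H] {k : ℕ} (b : Fin k)
    (y : EuclideanSpace ℂ (Fin k × H)) : ‖flT b y‖ ≤ ‖y‖ := by
  rw [EuclideanSpace.norm_eq, EuclideanSpace.norm_eq]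
  apply Real.sqrt_le_sqrt
  rw [Fintype.sum_prod_type]
  have h1 : (∑ s, ‖(flT b y) s‖ ^ 2) = ∑ s, ‖y (b, s)‖ ^ 2 := rfl
  rw [h1]
  exact Finset.single_le_sum (f := fun b => ∑ s, ‖y (b, s)‖ ^ 2)
    (fun b _ => Finset.sum_nonneg fun s _ => by positivity) (Finset.mem_univ b)

end auxFLT

/-- FLT. -/
theorem pf_FLT (hBEX : T_BEX) (hBLE : T_BLE) (hGQ : T_GQ) (hEMB : T_EMB) (hEMK : T_EMK) :
    T_FLT := by
  intro M _ _ k w hw L hL m z hz
  set W : ℕ → Submodule ℚ (Fin k → M) := fun b =>
    { carrier := {x | x ∈ Submodule.span ℚ (L : Set (Fin k → M)) ∧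
        ∀ b' : Fin k, (b' : ℕ) < b → x b' = 0}
      add_mem' := by
        rintro x y ⟨hx, hx'⟩ ⟨hy, hy'⟩
        refine ⟨Submodule.add_mem _ hx hy, fun b' hb' => ?_⟩
        rw [Pi.add_apply, hx' b' hb', hy' b' hb', add_zero]
      zero_mem' := ⟨Submodule.zero_mem _, fun b' _ => rfl⟩
      smul_mem' := by
        rintro c x ⟨hx, hx'⟩
        refine ⟨Submodule.smul_mem _ _ hx, fun b' hb' => ?_⟩
        rw [Pi.smul_apply, hx' b' hb', smul_zero] } with hW
  have hWmem : ∀ b x, x ∈ W b ↔ x ∈ Submodule.span ℚ (L : Set (Fin k → M)) ∧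
      ∀ b' : Fin k, (b' : ℕ) < b → x b' = 0 := fun b x => Iff.rfl
  have hWle : ∀ b, W b ≤ Submodule.span ℚ (L : Set (Fin k → M)) := fun b x hx => hx.1
  have hWanti : ∀ b, W (b + 1) ≤ W b := fun b x hx => ⟨hx.1, fun b' hb' => hx.2 b' (by omega)⟩
  have hex : ∀ b : Fin k, ∃ (a n : ℕ) (x : Fin a → (Fin k → M)) (u : Fin n → (Fin k → M)),
      IsBas L (W (b + 1)) x ∧ IsBas L (W b) (Sum.elim x u) := fun b =>
    hBEX _ L hL (W (b + 1)) (W b) (hWanti b) (hWle b)
  choose a n x u hx hxu using hex
  have huL : ∀ (b : Fin k) (i), u b i ∈ L := fun b i => (flMem (hxu b) (Sum.inr i)).1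
  have huW : ∀ (b : Fin k) (i), u b i ∈ W b := fun b i => (flMem (hxu b) (Sum.inr i)).2
  -- independence
  have hind : ∀ b, LinearIndependent ℚ fun i => u b i b := by
    intro b
    rw [Fintype.linearIndependent_iff]
    intro c hc
    have hli := linearIndependent_sum.1 (hxu b).1
    have hl2 : LinearIndependent ℚ (u b) := hli.2.1
    have hdis : Disjoint (Submodule.span ℚ (Set.range (x b)))
      (Submodule.span ℚ (Set.range (u b))) := hli.2.2
    have hyW : (∑ i, c i • u b i) ∈ W (b + 1) := by
      refine ⟨Submodule.sum_mem _ fun i _ => Submodule.smul_mem _ _ (huW b i).1, ?_⟩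
      intro b' hb'
      rcases Nat.lt_succ_iff_lt_or_eq.1 hb' with h | h
      · rw [Finset.sum_apply]
        refine Finset.sum_eq_zero fun i _ => ?_
        rw [Pi.smul_apply, (huW b i).2 b' h, smul_zero]
      · have : b' = b := Fin.ext h
        rw [this, Finset.sum_apply]
        exact hc
    have hyX : (∑ i, c i • u b i) ∈ Submodule.span ℚ (Set.range (x b)) := by
      rw [(hx b).2.1]
      exact hyW
    have hyu : (∑ i, c i • u b i) ∈ Submodule.span ℚ (Set.range (u b)) :=
      Submodule.sum_mem _ fun i _ => Submodule.smul_mem _ _ (Submodule.subset_span ⟨i, rfl⟩)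
    exact Fintype.linearIndependent_iff.1 hl2 c (Submodule.disjoint_def.1 hdis _ hyX hyu)
  refine ⟨n, u, huL, fun b i b' hb' => (huW b i).2 b' hb', hind, ?_, ?_⟩
  · intro b y hy hy'
    have h1 : y ∈ W b := ⟨hy, fun b' hb' => hy' b' hb'⟩
    rw [← (hxu b).2.1] at h1
    have h2 : ∀ y' ∈ Submodule.span ℚ (Set.range (Sum.elim (x b) (u b))),
        y' b ∈ Submodule.span ℚ (Set.range fun i => u b i b) := by
      intro y' hy'
      induction hy' using Submodule.span_induction with
      | mem y hy =>
        obtain ⟨i | i, rfl⟩ := hy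
        · have h2 : x b i b = 0 := (flMem (hx b) i).2.2 b (by omega)
          change x b i b ∈ _
          rw [h2]
          exact Submodule.zero_mem _
        · exact Submodule.subset_span ⟨i, rfl⟩
      | zero => exact Submodule.zero_mem _
      | add y y' h1 h2 hy hy' => exact Submodule.add_mem _ hy hy'
      | smul c y h1 hy => exact Submodule.smul_mem _ _ hy
    exact h2 y h1
  · have hEK := hEMK M k w hw
    -- the induction
    have hP : ∀ b : ℕ, b ≤ k → ∀ (ι : Type) [Fintype ι] [DecidableEq ι] (y : ι → (Fin k → M)),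
        IsBas L (W b) y →
        (∏ b' ∈ Finset.univ.filter (fun b' : Fin k => (b' : ℕ) < b),
          GD (fun i => vec M (w b') (u b' i b'))) * GD (fun i => vecK M w (y i)) ≤
          GD fun i => vecK M w (z i) := by
      intro b
      induction b with
      | zero =>
        intro _ ι _ _ y hy
        have h0 : W 0 = Submodule.span ℚ (L : Set (Fin k → M)) := by
          ext y
          simp [hWmem]
        rw [h0] at hy
        rw [flGD hBLE (vecK M w) hy hz]
        simp
      | succ b ih =>
        intro hb ι _ _ y hy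
        set b₀ : Fin k := ⟨b, hb⟩ with hb₀
        have h1 := ih (by omega) _ _ (hxu b₀)
        have hfil : Finset.univ.filter (fun b' : Fin k => (b' : ℕ) < b + 1) =
            insert b₀ (Finset.univ.filter (fun b' : Fin k => (b' : ℕ) < b)) := by
          ext b'
          simp only [Finset.mem_filter, Finset.mem_univ, true_and, Finset.mem_insert, hb₀,
            Fin.ext_iff]
          omega
        rw [hfil, Finset.prod_insert (by simp [hb₀]), flGD hBLE (vecK M w) hy (hx b₀)]
        have hTv : ∀ y : Fin k → M, flT b₀ (vecK M w y) = vec M (w b₀) (y b₀) := fun y => rfl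
        have hq := hGQ (EuclideanSpace ℂ (Fin k × (M →+* ℂ))) (EuclideanSpace ℂ (M →+* ℂ))
          (a b₀) (n b₀) 0 (fun i => vecK M w (x b₀ i)) (fun i => vecK M w (u b₀ i))
          (fun i => Fin.elim0 i) (fun i => vec M (w b₀) (u b₀ i b₀)) (flT b₀) 1
          (flEm hEK (hxu b₀).1) ?_ (flT_norm b₀) ?_ ?_ ?_
        · have e1 : GD (Sum.elim (fun i : Fin 0 => (Fin.elim0 i : EuclideanSpace ℂ (M →+* ℂ)))
              fun i => vec M (w b₀) (u b₀ i b₀)) = GD fun i => vec M (w b₀) (u b₀ i b₀) := by
            rw [← flReindex (Equiv.emptySum (Fin 0) (Fin (n b₀)))]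
            congr 1
            funext i
            rcases i with i | i
            · exact i.elim0
            · rfl
          have e2 : GD (fun i : Fin 0 => (Fin.elim0 i : EuclideanSpace ℂ (M →+* ℂ))) = 1 :=
            flEmpty _
          rw [e1, e2, mul_one] at hq
          rw [flSumElim] at h1
          have hnn : 0 ≤ ∏ b' ∈ Finset.univ.filter (fun b' : Fin k => (b' : ℕ) < b),
              GD (fun i => vec M (w b') (u b' i b')) :=
            Finset.prod_nonneg fun b' _ => norm_nonneg _
          calc _ = (∏ b' ∈ Finset.univ.filter (fun b' : Fin k => (b' : ℕ) < b),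
                GD (fun i => vec M (w b') (u b' i b'))) *
                (GD (fun i => vec M (w b₀) (u b₀ i b₀)) *
                  GD fun i => vecK M w (x b₀ i)) := by ring
            _ ≤ _ := mul_le_mul_of_nonneg_left hq hnn
            _ ≤ _ := h1
        · have h3 := (hEMB M (w b₀) (w b₀) (hw b₀) (hw b₀)).1 (n b₀) _ (hind b₀)
          refine linearIndependent_sum.2 ⟨linearIndependent_empty_type, h3, ?_⟩
          have : Set.range ((Sum.elim (fun i : Fin 0 =>
              (Fin.elim0 i : EuclideanSpace ℂ (M →+* ℂ)))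
              fun i => vec M (w b₀) (u b₀ i b₀)) ∘ Sum.inl) = ∅ := Set.range_eq_empty _
          rw [this, Submodule.span_empty]
          exact disjoint_bot_left
        · intro i
          rw [hTv, (flMem (hx b₀) i).2.2 b₀ (by simp [hb₀]), map_zero]
          exact Submodule.zero_mem _
        · simp
        · intro i
          rw [hTv]
          have : (∑ l, (1 : Matrix (Fin (n b₀)) (Fin (n b₀)) ℂ) i l •
              vec M (w b₀) (u b₀ l b₀)) = vec M (w b₀) (u b₀ i b₀) := by
            simp [Matrix.one_apply]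
          rw [this, sub_self]
          exact Submodule.zero_mem _
    have hWk : W k = ⊥ := by
      rw [eq_bot_iff]
      intro y hy
      rw [Submodule.mem_bot]
      funext b
      exact hy.2 b b.2
    have hb : IsBas L (W k) (fun i : Fin 0 => (Fin.elim0 i : Fin k → M)) := by
      rw [hWk]
      refine ⟨linearIndependent_empty_type, ?_, ?_⟩
      · rw [Set.range_eq_empty, Submodule.span_empty]
      · intro y
        rw [Set.range_eq_empty, Submodule.span_empty, Submodule.mem_bot, Submodule.mem_bot]
        constructor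
        · intro h
          rw [h]
          exact ⟨Submodule.zero_mem _, rfl⟩
        · exact fun h => h.2
    have h := hP k le_rfl _ _ hb
    have hfil : Finset.univ.filter (fun b' : Fin k => (b' : ℕ) < k) = Finset.univ := by
      ext b'
      simp
    rw [hfil, flEmpty, mul_one] at h
    exact h

end Pool.Agent.H90.REM
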