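import Pool.Agent.H26.REM.Targets4

set_option autoImplicit false

/-!
# MP_c65535_nt, board rcl_modules, row GI, second part: the lattice and the dimensions
-/

namespace Pool.Agent.H90.REM

open Pool.Agent.H26.REM
open NumberField Height Finset Polynomial

section gib

variable {K M : Type} [Field K] [NumberField K] [Field M] [NumberField M] [Algebra K M]
  {k R : ℕ} (φ : Fin k → K ≃+* K) (Y : Fin k → Fin R → M)

omit [NumberField K] [NumberField M] in
theorem giEEsmul (c : K) (x : Fin R → K) (b : Fin k) :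
    EE φ Y (c • x) b = algebraMap K M (φ b c) * EE φ Y x b := by
  simp only [EE, AddMonoidHom.coe_mk, ZeroHom.coe_mk]
  rw [Finset.mul_sum]
  refine Finset.sum_congr rfl fun j _ => ?_
  rw [Pi.smul_apply, smul_eq_mul, map_mul, map_mul, mul_assoc]

/-- The values at the integral vectors. -/
noncomputable def giF : (Fin R → 𝓞 K) →+ (Fin k → M) where
  toFun x := EE φ Y fun j => (x j : K)
  map_zero' := by
    have : (fun j => (((0 : Fin R → 𝓞 K) j : 𝓞 K) : K)) = 0 := by
      funext j
      simp
    rw [this, map_zero]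
  map_add' x y := by
    rw [← map_add]
    congr 1

omit [NumberField K] [NumberField M] in
theorem giLamEq : ELam φ Y = LinearMap.range (giF φ Y).toIntLinearMap := by
  unfold ELam
  have h : {z : Fin k → M | ∃ x : Fin R → 𝓞 K, z = EE φ Y fun j => (x j : K)} =
      (LinearMap.range (giF φ Y).toIntLinearMap : Set (Fin k → M)) := by
    ext z
    constructor
    · rintro ⟨x, hx⟩
      exact ⟨x, hx.symm⟩
    · rintro ⟨x, hx⟩
      exact ⟨x, hx.symm⟩
  rw [h, Submodule.span_eq]

omit [NumberField M] in
theorem giLamMem {z : Fin k → M} (hz : z ∈ ELam φ Y) :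
    ∃ x : Fin R → 𝓞 K, z = EE φ Y fun j => (x j : K) := by
  rw [giLamEq] at hz
  obtain ⟨x, hx⟩ := hz
  exact ⟨x, hx.symm⟩

omit [NumberField M] in
theorem giLamFG : (ELam φ Y).FG := by
  rw [giLamEq, LinearMap.range_eq_map]
  exact Submodule.FG.map _ Module.Finite.fg_top

/-- All values are rational combinations of the values at integral vectors. -/
theorem giSpan (x : Fin R → K) : EE φ Y x ∈ Submodule.span ℚ (ELam φ Y : Set (Fin k → M)) := by
  set E := (EE φ Y).toRatLinearMap with hE
  have hmem : ∀ (j : Fin R) (l), (Pi.single j (integralBasis K l) : Fin R → K) ∈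
      (Submodule.span ℚ (ELam φ Y : Set (Fin k → M))).comap E := by
    intro j l
    refine Submodule.subset_span (Submodule.subset_span ⟨Pi.single j (RingOfIntegers.basis K l),
      ?_⟩)
    change EE φ Y _ = EE φ Y _
    congr 1
    funext i
    by_cases h : i = j
    · subst h
      simp [integralBasis_apply]
    · simp [Pi.single_eq_of_ne h]
  have hx : x ∈ (Submodule.span ℚ (ELam φ Y : Set (Fin k → M))).comap E := by
    have h1 : x = ∑ j, (LinearMap.single ℚ (fun _ : Fin R => K) j) (x j) := by
      funext i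
      simp [Finset.sum_apply]
    rw [h1]
    refine Submodule.sum_mem _ fun j _ => ?_
    rw [← (integralBasis K).sum_repr (x j), map_sum]
    refine Submodule.sum_mem _ fun l _ => ?_
    rw [map_smul]
    exact Submodule.smul_mem _ _ (hmem j l)
  exact hx

/-- The subspace of the values of the `b`-th form on the kernel of the previous ones. -/
noncomputable def giU (b : Fin k) : Submodule K M where
  carrier := {m | ∃ x ∈ KerB φ Y b, EE φ Y x b = m}
  add_mem' := by
    rintro _ _ ⟨x, hx, rfl⟩ ⟨y, hy, rfl⟩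
    exact ⟨x + y, Submodule.add_mem _ hx hy, by rw [map_add, Pi.add_apply]⟩
  zero_mem' := ⟨0, Submodule.zero_mem _, by rw [map_zero, Pi.zero_apply]⟩
  smul_mem' := by
    rintro c _ ⟨x, hx, rfl⟩
    refine ⟨(φ b).symm c • x, Submodule.smul_mem _ _ hx, ?_⟩
    rw [giEEsmul, RingEquiv.apply_symm_apply, Algebra.smul_def]

theorem giRank (b : Fin k) : (Module.finrank ℚ ((giU φ Y b).restrictScalars ℚ) : ℝ) =
    Module.finrank ℚ K * ((Module.finrank K (KerB φ Y b) : ℝ) -
      Module.finrank K (KerB φ Y ((b : ℕ) + 1))) := by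
  set E : (Fin R → K) →ₗ[ℚ] M := (LinearMap.proj b).comp (EE φ Y).toRatLinearMap with hE
  set A : Submodule ℚ (Fin R → K) := (KerB φ Y b).restrictScalars ℚ with hA
  set B : Submodule ℚ (Fin R → K) := (KerB φ Y ((b : ℕ) + 1)).restrictScalars ℚ with hB
  have hBA : B ≤ A := fun x hx b' hb' => hx b' (Nat.lt_succ_of_lt hb')
  have h1 := LinearMap.finrank_range_add_finrank_ker (E.domRestrict A)
  have h2 : LinearMap.range (E.domRestrict A) = (giU φ Y b).restrictScalars ℚ := by
    ext m
    constructor
    · rintro ⟨⟨x, hx⟩, rfl⟩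
      exact ⟨x, hx, rfl⟩
    · rintro ⟨x, hx, rfl⟩
      exact ⟨⟨x, hx⟩, rfl⟩
  have h3 : LinearMap.ker (E.domRestrict A) = B.comap A.subtype := by
    ext ⟨x, hx⟩
    rw [LinearMap.mem_ker, Submodule.mem_comap]
    constructor
    · intro h b' hb'
      rcases Nat.lt_succ_iff_lt_or_eq.1 hb' with h' | h'
      · exact hx b' h'
      · have : b' = b := Fin.ext h'
        rw [this]
        exact h
    · intro h
      exact h b (Nat.lt_succ_self _)
  have h4 : Module.finrank ℚ (B.comap A.subtype) = Module.finrank ℚ B :=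
    (Submodule.comapSubtypeEquivOfLe hBA).finrank_eq
  have h5 : Module.finrank ℚ K * Module.finrank K (KerB φ Y b) = Module.finrank ℚ A :=
    Module.finrank_mul_finrank ℚ K (KerB φ Y b)
  have h6 : Module.finrank ℚ K * Module.finrank K (KerB φ Y ((b : ℕ) + 1)) = Module.finrank ℚ B :=
    Module.finrank_mul_finrank ℚ K (KerB φ Y ((b : ℕ) + 1))
  rw [h2, h3, h4, ← h6, ← h5] at h1
  have h7 : (Module.finrank ℚ ((giU φ Y b).restrictScalars ℚ) : ℝ) +
      (Module.finrank ℚ K : ℝ) * Module.finrank K (KerB φ Y ((b : ℕ) + 1)) =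
      (Module.finrank ℚ K : ℝ) * Module.finrank K (KerB φ Y b) := by exact_mod_cast h1
  linarith

end gib

end Pool.Agent.H90.REM
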