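import Pool.Agent.H90.REM.GIa
import Pool.Agent.H90.REM.GIb

set_option autoImplicit false

/-!
# MP_c65535_nt, board rcl_modules, row GI (the main inequality)
-/

namespace Pool.Agent.H90.REM

open Pool.Agent.H26.REM
open NumberField Height Finset Polynomial

/-- GI. -/
theorem pf_GI (hGIU : T_GIU) (hFLT : T_FLT) (hSLK : T_SLK) (hBEX : T_BEX) (_hEMK : T_EMK) :
    T_GI := by
  intro K M _ _ _ _ _ k R φ Y S _ Z X ϖ T _ G hG hGs hZ hX hϖ hϖf hYi hYf hinj
  classical
  -- the weights
  set sp : Fin k → (M →+* ℂ) → ℝ := fun b s => ⨆ l, ‖s (Z b l)‖ with hsp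
  set fp : Fin k → FinitePlace M → ℝ := fun b v => ⨆ l, v.1 (Z b l) with hfp
  have hsppos : ∀ b s, 0 < sp b s := fun b s =>
    giSupPos (f := fun x => ‖s x‖) (hZ b) fun x hx => by
      have : s x ≠ 0 := (map_ne_zero s).2 hx
      exact norm_pos_iff.2 this
  have hfppos : ∀ b v, 0 < fp b v := fun b v =>
    giSupPos (f := fun x => v.1 x) (hZ b) fun x hx => v.1.pos hx
  have hfpfin : ∀ b, {v | fp b v ≠ 1}.Finite := fun b => giSupFin (hZ b)
  set w : Fin k → (M →+* ℂ) → ℝ := fun b s => (X b * sp b s)⁻¹ with hw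
  set t : Fin k → FinitePlace M → ℝ := fun b v => ϖ b v * fp b v with ht
  have hwpos : ∀ b s, 0 < w b s := fun b s => inv_pos.2 (mul_pos (hX b) (hsppos b s))
  have htpos : ∀ b v, 0 < t b v := fun b v => mul_pos (hϖ b v) (hfppos b v)
  have htfin : ∀ b, {v | t b v ≠ 1}.Finite := by
    intro b
    refine ((hϖf b).union (hfpfin b)).subset fun v hv => ?_
    by_contra hcon
    rw [Set.mem_union, not_or] at hcon
    have h1 : ϖ b v = 1 := not_not.1 hcon.1
    have h2 : fp b v = 1 := not_not.1 hcon.2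
    apply hv
    simp only [ht]
    rw [h1, h2, one_mul]
  have hwY : ∀ b j s, w b s * ‖s (Y b j)‖ ≤ 1 := by
    intro b j s
    have h1 : 0 < X b * sp b s := mul_pos (hX b) (hsppos b s)
    simp only [hw]
    rw [inv_mul_le_iff₀ h1, mul_one]
    exact hYi b j s
  -- the basis
  obtain ⟨m, m', z, -, hz, -⟩ := hBEX (Fin k → M) (ELam φ Y) (giLamFG φ Y)
    (Submodule.span ℚ (ELam φ Y : Set (Fin k → M))) _ le_rfl le_rfl
  obtain ⟨hm, hGDle⟩ := hGIU K M k R φ Y w hwpos hwY hinj m z hz
  obtain ⟨n, u, huL, hu0, hui, husp, huprod⟩ := hFLT M k w hwpos (ELam φ Y) (giLamFG φ Y) m z hz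
  -- the spans
  have hspan : ∀ b : Fin k, Submodule.span ℚ (Set.range fun i => u b i b) =
      (giU φ Y b).restrictScalars ℚ := by
    intro b
    apply le_antisymm
    · rw [Submodule.span_le]
      rintro _ ⟨i, rfl⟩
      obtain ⟨x, hx⟩ := giLamMem φ Y (huL b i)
      refine ⟨fun j => (x j : K), ?_, ?_⟩
      · intro b' hb'
        rw [← hx]
        exact hu0 b i b' hb'
      · rw [← hx]
    · rintro _ ⟨x, hx, rfl⟩
      exact husp b _ (giSpan φ Y x) fun b' hb' => hx b' hb'
  have hnR : ∀ b : Fin k, (n b : ℝ) = Module.finrank ℚ K *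
      ((Module.finrank K (KerB φ Y b) : ℝ) - Module.finrank K (KerB φ Y ((b : ℕ) + 1))) := by
    intro b
    rw [← giRank, ← hspan b, finrank_span_eq_card (hui b), Fintype.card_fin]
  have hLT : ∀ (b : Fin k) i, u b i b ∈ LT M (t b) := by
    intro b i
    refine Submodule.subset_span ?_
    intro v
    obtain ⟨x, hx⟩ := giLamMem φ Y (huL b i)
    rw [hx]
    refine hYf b x (fun b' hb' => ?_) v
    rw [← hx]
    exact hu0 b i b' hb'
  have hS : ∀ b : Fin k, _ := fun b => hSLK K M (t b) (w b) T G (htpos b) (htfin b) (hwpos b) hG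
    hGs (giU φ Y b) (n b) (fun i => u b i b) (hui b) (hspan b) (hLT b)
  -- the exponents
  set D : ℝ := (Module.finrank ℚ M : ℝ) with hD
  set g : ℝ := (Module.finrank ℚ K : ℝ) with hg
  set N : ℝ := (Module.finrank K M : ℝ) with hN
  set hh : ℝ := logHeight G with hhh
  set dM : ℝ := Real.log |(discr M : ℝ)| with hdM
  set dK : ℝ := Real.log |(discr K : ℝ)| with hdK
  have hDpos : 0 < D := by
    rw [hD]
    exact_mod_cast Module.finrank_pos
  have hgpos : 0 < g := by
    rw [hg]
    exact_mod_cast Module.finrank_pos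
  set A : Fin k → ℝ := fun b => dM + 2 * ∑ s, Real.log (w b s) - 2 * ∑ᶠ v, Real.log (t b v) -
    2 * hh with hA
  have hprod : Real.exp (∑ b, (n b : ℝ) / D * A b) ≤
      |(discr K : ℝ)| ^ R * (k * Module.finrank K M : ℝ) ^ (Module.finrank ℚ K * R) := by
    rw [Real.exp_sum]
    refine le_trans (Finset.prod_le_prod (fun b _ => (Real.exp_pos _).le) fun b _ => hS b) ?_
    exact huprod.trans hGDle
  have hrhs : 0 < |(discr K : ℝ)| ^ R * (k * Module.finrank K M : ℝ) ^
      (Module.finrank ℚ K * R) := (Real.exp_pos _).trans_le hprod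
  have hlog : ∑ b, (n b : ℝ) / D * A b ≤ R * dK + g * R * Real.log (k * N) := by
    have h1 := (Real.le_log_iff_exp_le hrhs).2 hprod
    rw [Real.log_mul (left_ne_zero_of_mul hrhs.ne') (right_ne_zero_of_mul hrhs.ne'),
      Real.log_pow, Real.log_pow] at h1
    push_cast at h1
    exact h1
  -- the value of the exponents
  have hAval : ∀ b, A b = dM - 2 * D * Real.log (X b) - 2 * logHeight (Z b) -
      2 * ∑ᶠ v, Real.log (ϖ b v) - 2 * hh := by
    intro b
    have h1 : ∑ s, Real.log (w b s) = - (D * Real.log (X b)) - ∑ s, Real.log (sp b s) := by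
      have h2 : ∀ s, Real.log (w b s) = - Real.log (X b) - Real.log (sp b s) := by
        intro s
        simp only [hw]
        rw [Real.log_inv, Real.log_mul (hX b).ne' (hsppos b s).ne']
        ring
      rw [Finset.sum_congr rfl fun s _ => h2 s, Finset.sum_sub_distrib, Finset.sum_const,
        Finset.card_univ, Embeddings.card, nsmul_eq_mul]
      ring
    have h3 : ∑ᶠ v, Real.log (t b v) = ∑ᶠ v, Real.log (ϖ b v) + ∑ᶠ v, Real.log (fp b v) := by
      rw [← finsum_add_distrib]
      · refine finsum_congr fun v => ?_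
        simp only [ht]
        exact Real.log_mul (hϖ b v).ne' (hfppos b v).ne'
      · refine (hϖf b).subset fun v hv h1 => hv ?_
        change Real.log (ϖ b v) = 0
        rw [h1, Real.log_one]
      · refine (hfpfin b).subset fun v hv h1 => hv ?_
        change Real.log (fp b v) = 0
        rw [h1, Real.log_one]
    have h4 : logHeight (Z b) = ∑ s, Real.log (sp b s) + ∑ᶠ v, Real.log (fp b v) :=
      giHeight (hZ b)
    simp only [hA]
    rw [h1, h3, h4]
    ring
  -- the telescope
  set κ : ℕ → ℝ := fun b => Module.finrank K (KerB φ Y b) with hκ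
  have hκ0 : κ 0 = R := by
    have : KerB φ Y 0 = ⊤ := by
      rw [eq_top_iff]
      intro x _ b' hb'
      exact absurd hb' (Nat.not_lt_zero _)
    simp only [hκ]
    rw [this, finrank_top, Module.finrank_fin_fun]
  have hκk : κ k = 0 := by
    have : KerB φ Y k = ⊥ := by
      rw [eq_bot_iff]
      intro x hx
      rw [Submodule.mem_bot]
      apply hinj
      funext b
      exact hx b b.2
    simp only [hκ]
    rw [this, finrank_bot, Nat.cast_zero]
  have htel : ∑ b : Fin k, (κ b - κ ((b : ℕ) + 1)) = R := by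
    rw [Fin.sum_univ_eq_sum_range (fun b => κ b - κ (b + 1)) k, Finset.sum_range_sub', hκ0, hκk,
      sub_zero]
  have hsum : ∑ b, (n b : ℝ) / D * A b = g / D * (R * dM - 2 * R * hh - 2 * ∑ b : Fin k,
      (κ b - κ ((b : ℕ) + 1)) * (D * Real.log (X b) + logHeight (Z b) +
        ∑ᶠ v, Real.log (ϖ b v))) := by
    have h1 : ∀ b : Fin k, (n b : ℝ) / D * A b = g / D * ((κ b - κ ((b : ℕ) + 1)) * (dM - 2 * hh) -
        2 * ((κ b - κ ((b : ℕ) + 1)) * (D * Real.log (X b) + logHeight (Z b) +
        ∑ᶠ v, Real.log (ϖ b v)))) := by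
      intro b
      rw [hnR b, hAval b]
      simp only [hκ]
      ring
    rw [Finset.sum_congr rfl fun b _ => h1 b, ← Finset.mul_sum, Finset.sum_sub_distrib,
      ← Finset.sum_mul, htel, ← Finset.mul_sum]
    ring
  rw [hsum] at hlog
  have hgoal : ∑ b : Fin k, (κ b - κ ((b : ℕ) + 1)) * (logHeight (Z b) / D + Real.log (X b) +
      (∑ᶠ v, Real.log (ϖ b v)) / D) = (∑ b : Fin k, (κ b - κ ((b : ℕ) + 1)) *
        (D * Real.log (X b) + logHeight (Z b) + ∑ᶠ v, Real.log (ϖ b v))) / D := by
    rw [Finset.sum_div]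
    refine Finset.sum_congr rfl fun b _ => ?_
    field_simp
    ring
  change (R : ℝ) * (dM / (2 * D) - dK / (2 * g)) ≤ R * (Real.log (k * N) / 2 + hh / D) +
    ∑ b : Fin k, (κ b - κ ((b : ℕ) + 1)) * (logHeight (Z b) / D + Real.log (X b) +
      (∑ᶠ v, Real.log (ϖ b v)) / D)
  rw [hgoal]
  set Q := ∑ b : Fin k, (κ b - κ ((b : ℕ) + 1)) *
        (D * Real.log (X b) + logHeight (Z b) + ∑ᶠ v, Real.log (ϖ b v)) with hQ
  have h2 : (R : ℝ) * dM - 2 * R * hh - 2 * Q ≤ D / g * (R * dK + g * R * Real.log (k * N)) := by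
    have h3 : (R : ℝ) * dM - 2 * R * hh - 2 * Q =
        D / g * (g / D * (R * dM - 2 * R * hh - 2 * Q)) := by
      field_simp
    rw [h3]
    exact mul_le_mul_of_nonneg_left hlog (by positivity)
  have h4 : D / g * (R * dK + g * R * Real.log (k * N)) =
      D * (R * dK / g + R * Real.log (k * N)) := by
    field_simp
  rw [h4] at h2
  have h5 : (R : ℝ) * (dM / (2 * D) - dK / (2 * g)) = (R * dM) / (2 * D) - R * dK / g / 2 := by
    field_simp
  have h6 : (R : ℝ) * (Real.log (k * N) / 2 + hh / D) + Q / D =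
      (D * (R * Real.log (k * N)) + 2 * R * hh + 2 * Q) / (2 * D) := by
    field_simp
  have h7 : (R : ℝ) * dM / (2 * D) - R * dK / g / 2 = (R * dM - D * (R * dK / g)) / (2 * D) := by
    field_simp
  rw [h5, h6, h7]
  refine div_le_div_of_nonneg_right ?_ (by positivity)
  linarith

end Pool.Agent.H90.REM
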