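import Pool.Agent.H26.REM.Targets4

set_option autoImplicit false

/-!
# MP_c65535_nt, board rcl_modules, row GI, first part: heights as sums over the places
-/

namespace Pool.Agent.H90.REM

open Pool.Agent.H26.REM
open NumberField Height Finset Polynomial

theorem giSupPos {M S : Type} [Zero M] [Finite S] {Z : S → M} (hZ : Z ≠ 0) {f : M → ℝ}
    (hf : ∀ x, x ≠ 0 → 0 < f x) : 0 < ⨆ l, f (Z l) := by
  obtain ⟨l, hl⟩ := Function.ne_iff.1 hZ
  exact (hf _ hl).trans_le (le_ciSup (f := fun l => f (Z l)) (Set.finite_range _).bddAbove l)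

theorem giSupFin {M S : Type} [Field M] [NumberField M] [Finite S] {Z : S → M} (hZ : Z ≠ 0) :
    {v : FinitePlace M | (⨆ l, v.1 (Z l)) ≠ 1}.Finite := by
  have h1 : (⋃ l : {l : S // Z l ≠ 0}, {v : FinitePlace M | v.1 (Z l) ≠ 1}).Finite := by
    refine Set.finite_iUnion fun l => ?_
    exact FinitePlace.hasFiniteMulSupport l.2
  refine h1.subset fun v hv => ?_
  by_contra hcon
  apply hv
  have h2 : ∀ l, Z l ≠ 0 → v.1 (Z l) = 1 := by
    intro l hl
    by_contra hne
    exact hcon (Set.mem_iUnion.2 ⟨⟨l, hl⟩, hne⟩)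
  obtain ⟨l₀, hl₀⟩ := Function.ne_iff.1 hZ
  have : Nonempty S := ⟨l₀⟩
  apply le_antisymm
  · refine ciSup_le fun l => ?_
    by_cases hl : Z l = 0
    · rw [hl, map_zero]
      exact zero_le_one
    · rw [h2 l hl]
  · rw [← h2 l₀ hl₀]
    exact le_ciSup (f := fun l => v.1 (Z l)) (Set.finite_range _).bddAbove l₀

theorem giSumMk {M : Type} [Field M] [NumberField M] (f : InfinitePlace M → ℝ) :
    ∑ s : M →+* ℂ, f (InfinitePlace.mk s) = ∑ v : InfinitePlace M, (v.mult : ℝ) * f v := by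
  classical
  rw [← Finset.sum_fiberwise (s := Finset.univ) (g := fun s : M →+* ℂ => InfinitePlace.mk s)]
  refine Finset.sum_congr rfl fun v _ => ?_
  rw [← InfinitePlace.card_filter_mk_eq, ← nsmul_eq_mul, ← Finset.sum_const]
  refine Finset.sum_congr rfl fun s hs => ?_
  rw [(Finset.mem_filter.1 hs).2]

theorem giHeight {M S : Type} [Field M] [NumberField M] [Finite S] {Z : S → M} (hZ : Z ≠ 0) :
    logHeight Z = ∑ s : M →+* ℂ, Real.log (⨆ l, ‖s (Z l)‖) +
      ∑ᶠ v : FinitePlace M, Real.log (⨆ l, v.1 (Z l)) := by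
  have hinf : ∀ v : InfinitePlace M, 0 < ⨆ l, v (Z l) := fun v =>
    giSupPos (f := fun x => v x) hZ fun x hx => InfinitePlace.pos_iff.2 hx
  have hfin : ∀ v : FinitePlace M, 0 < ⨆ l, v (Z l) := fun v =>
    giSupPos (f := fun x => v x) hZ fun x hx => FinitePlace.pos_iff.2 hx
  have hp : 0 < mulHeight Z := mulHeight_pos _
  have h1 : mulHeight Z = (∏ v : InfinitePlace M, (⨆ i, v (Z i)) ^ v.mult) *
      ∏ᶠ v : FinitePlace M, ⨆ i, v (Z i) := NumberField.mulHeight_eq hZ
  rw [logHeight_eq_log_mulHeight, h1]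
  rw [h1] at hp
  rw [Real.log_mul (left_ne_zero_of_mul hp.ne') (right_ne_zero_of_mul hp.ne'),
    Real.log_prod fun v _ => (pow_pos (hinf v) _).ne', Real.log_finprod fun v => hfin v]
  congr 1
  have h3 := giSumMk (M := M) fun v => Real.log (⨆ l, v (Z l))
  refine Eq.trans (Finset.sum_congr rfl fun v _ => ?_) (h3.symm.trans ?_)
  · rw [Real.log_pow]
  · exact Finset.sum_congr rfl fun s _ => rfl

end Pool.Agent.H90.REM
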